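import Pool.Agent.W769.SR.Stm

/-! Project SR, part S_PARS: Parseval for analytic functions on a circle. -/

set_option autoImplicit false

namespace Pool.Agent.W63.SR.Pars

open Metric Set Filter Topology Real Pool.Agent.W769.SR

lemma parseval_fin (p : ℕ → ℂ) (r : ℝ) (h0 : 0 ≤ r) (N : ℕ) :
    Real.circleAverage (fun z => ‖∑ n ∈ Finset.range N, p n * z ^ n‖ ^ 2) 0 r
      = ∑ n ∈ Finset.range N, ‖p n‖ ^ 2 * r ^ (2 * n) := by
  set q : Polynomial ℂ := ∑ n ∈ Finset.range N, Polynomial.monomial n (p n * (r : ℂ) ^ n) with hq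
  have hqc : ∀ n, q.coeff n = if n < N then p n * (r : ℂ) ^ n else 0 := by
    intro n
    simp [hq, Polynomial.finsetSum_coeff, Polynomial.coeff_monomial]
  have hqe : ∀ z, q.eval z = ∑ n ∈ Finset.range N, p n * (r : ℂ) ^ n * z ^ n := by
    intro z
    simp [hq, Polynomial.eval_finsetSum, Polynomial.eval_monomial]
  have h1 : Real.circleAverage (fun z => ‖∑ n ∈ Finset.range N, p n * z ^ n‖ ^ 2) 0 r
      = Real.circleAverage (fun z => ‖q.eval z‖ ^ 2) 0 1 := by
    unfold Real.circleAverage
    congr 1
    apply intervalIntegral.integral_congr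
    intro θ _
    simp only [hqe]
    congr 2
    refine Finset.sum_congr rfl fun n _ => ?_
    simp only [circleMap_zero]
    push_cast
    ring
  rw [h1, ← Polynomial.sum_sq_norm_coeff_eq_circleAverage]
  have h2 : ∀ n, ‖q.coeff n‖ ^ 2 = if n < N then ‖p n‖ ^ 2 * r ^ (2 * n) else 0 := by
    intro n
    rw [hqc]
    split_ifs
    · rw [norm_mul, norm_pow, Complex.norm_real, Real.norm_of_nonneg h0, mul_pow, ← pow_mul,
        mul_comm 2 n]
    · simp
  have h3 : ∑ n ∈ Finset.range N, ‖p n‖ ^ 2 * r ^ (2 * n)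
      = ∑ n ∈ Finset.range N, ‖q.coeff n‖ ^ 2 := by
    refine Finset.sum_congr rfl fun n hn => ?_
    rw [h2, if_pos (Finset.mem_range.mp hn)]
  rw [h3]
  apply Finset.sum_subset
  · intro n hn
    rw [Polynomial.mem_support_iff, hqc] at hn
    rw [Finset.mem_range]
    by_contra h
    exact hn (if_neg h)
  · intro n _ hn
    rw [Polynomial.notMem_support_iff] at hn
    rw [hn]; simp

/-- Taylor series in the ball -/
lemma taylor {f : ℂ → ℂ} {R : ℝ} (hf : DifferentiableOn ℂ f (ball 0 R)) {z : ℂ}
    (hz : z ∈ ball (0 : ℂ) R) : HasSum (fun k => co f k * z ^ k) (f z) := by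
  have h := Complex.hasSum_taylorSeries_on_ball hf hz
  refine h.congr_fun ?_ |> fun h' => h'
  intro k
  simp only [co, sub_zero, smul_eq_mul]
  ring

theorem main : S_PARS := by
  intro f R r hr hrR hf
  have h0 : (0 : ℝ) ≤ r := hr.le
  -- absolute convergence
  have hsum : Summable fun k => ‖co f k‖ * r ^ k := by
    have hz : ((r : ℝ) : ℂ) ∈ ball (0 : ℂ) R := by
      simpa [abs_of_nonneg h0] using hrR
    have h := (taylor hf hz).summable.norm
    refine h.congr fun k => ?_
    rw [norm_mul, norm_pow, Complex.norm_real, Real.norm_of_nonneg h0]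
  rw [hasSum_iff_tendsto_nat_of_nonneg (fun n => by positivity)]
  simp_rw [← parseval_fin _ r h0]
  unfold av Real.circleAverage
  apply Tendsto.const_smul
  have hmem : ∀ θ : ℝ, ‖circleMap 0 r θ‖ = r := by
    intro θ
    rw [norm_circleMap_zero, abs_of_nonneg h0]
  apply intervalIntegral.tendsto_integral_filter_of_dominated_convergence
    (fun _ => (∑' n, ‖co f n‖ * r ^ n) ^ 2)
  · filter_upwards with N
    apply Continuous.aestronglyMeasurable
    fun_prop
  · filter_upwards with N
    filter_upwards with θ _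
    rw [Real.norm_of_nonneg (by positivity)]
    apply pow_le_pow_left₀ (norm_nonneg _)
    refine (norm_sum_le _ _).trans ?_
    refine le_trans (le_of_eq ?_) (hsum.sum_le_tsum (Finset.range N) (fun i _ => by positivity))
    refine Finset.sum_congr rfl fun n _ => ?_
    rw [norm_mul, norm_pow, hmem]
  · exact intervalIntegrable_const
  · filter_upwards with θ _
    have hs := taylor hf (z := circleMap 0 r θ) (by rw [mem_ball_zero_iff, hmem]; exact hrR)
    exact (hs.tendsto_sum_nat.norm).pow 2

end Pool.Agent.W63.SR.Pars
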